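import Pool.Agent.Helper59.TreeGameMain

open Set
open scoped ENNReal
open Pool.Agent.Helper59.TreeGame

namespace Pool.Agent.Results.MP_decccb_lc.SubtreeGameDimensions

/-- For every subtree `T` of the full binary tree whose canopy has Hausdorff dimension larger than
`1 / 2`, and every `δ` between `1 / 2` and that dimension, there are subsets of the canopy of
dimension exactly `δ` which are, respectively, non-determined, won by Player I, won by
Player II. -/
theorem result :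
    ∀ T : Set (List Bool), IsSubtree T → 1 / 2 < hdim (canopy T) →
      ∀ δ : ℝ≥0∞, 1 / 2 ≤ δ → δ ≤ hdim (canopy T) →
        ∃ W W₁ W₂ : Set (ℕ → Bool),
          W ⊆ canopy T ∧ W₁ ⊆ canopy T ∧ W₂ ⊆ canopy T ∧
          hdim W = δ ∧ hdim W₁ = δ ∧ hdim W₂ = δ ∧
          ¬ Determined T W ∧ WinsI T W₁ ∧ WinsII T W₂ := by
  intro T hT hd δ h1 h2
  obtain ⟨⟨W, hW1, hW2, hW3⟩, ⟨W₁, hW₁1, hW₁2, hW₁3⟩, ⟨W₂, hW₂1, hW₂2, hW₂3⟩⟩ :=
    main hT hd h1 h2
  exact ⟨W, W₁, W₂, hW1, hW₁1, hW₂1, hW2, hW₁2, hW₂2, hW3, hW₁3, hW₂3⟩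

end Pool.Agent.Results.MP_decccb_lc.SubtreeGameDimensions
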